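import Pool.Agent.Q129.QuantumSRG

set_option autoImplicit false

/-!
# A strongly regular graph with quantum chromatic number below the chromatic number

The orthogonality graph of the 63 root lines of `E_7` is strongly regular with parameters
`(63, 30, 13, 15)`, has a quantum 8-colouring in dimension 8 and chromatic number at least 9.
-/

theorem Pool.Agent.Results.MP_75a6b7_co.QuantumBelowClassical.result :
    ∃ (G : SimpleGraph (Fin 63)) (_ : DecidableRel G.Adj), G.IsSRGWith 63 30 13 15 ∧
      Q129.QuantumSRG.HasQuantumColoring G 8 8 ∧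
      Q129.QuantumSRG.quantumChromaticNumber G ≤ 8 ∧ 9 ≤ G.chromaticNumber ∧
      (Q129.QuantumSRG.quantumChromaticNumber G : ℕ∞) < G.chromaticNumber := by
  refine ⟨Q129.QuantumSRG.gr, inferInstance, Q129.QuantumSRG.gr_srg, Q129.QuantumSRG.quantum,
    Q129.QuantumSRG.quantum_le, Q129.QuantumSRG.nine_le, ?_⟩
  refine lt_of_lt_of_le ?_ Q129.QuantumSRG.nine_le
  have h : Q129.QuantumSRG.quantumChromaticNumber Q129.QuantumSRG.gr < 9 :=
    lt_of_le_of_lt Q129.QuantumSRG.quantum_le (by norm_num)
  exact_mod_cast h
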